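import Pool.Agent.ZRT.StmtsA

/-!
Squad ZRT, row XDE: the exponential map is a local diffeomorphism on the ball of radius pi.
-/

set_option autoImplicit false

noncomputable section

open scoped ContDiff Topology RealInnerProductSpace
open Set MeasureTheory

namespace Pool.Agent.ZRT.H47

open Pool.Agent.RF Pool.Agent.MVS Pool.Agent.ZRT

theorem xde (hB : Xb1Statement) (hL : XloStatement) : XdeStatement := by
  intro G ex hG hS hE m hm v hv
  have hpos : ∀ w : E5, w ≠ 0 → 0 < G m w w := fun w hw => hG.metric.pos m hm w hw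
  have hid : ∀ w, dE ex m 0 w = w := (hB G ex hG hE m hm).2.1
  by_cases hv0 : v = 0
  · subst hv0
    have h0 : nm G m 0 = 0 := by
      unfold nm
      rw [map_zero, Real.sqrt_zero]
    refine ⟨fun w => ?_, ?_⟩
    · rw [h0, Real.sin_zero]
      simp
    · have hf : ∀ w, fderiv ℝ (fun u : E5 => ex (m, u)) 0 w = w := hid
      refine ⟨fun a b hab => ?_, fun b => ⟨b, hf b⟩⟩
      rw [hf a, hf b] at hab
      exact hab
  · set r : ℝ := nm G m v with hr
    have hvv : 0 < G m v v := hpos v hv0
    have hr0 : 0 < r := Real.sqrt_pos.2 hvv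
    have hr2 : r ^ 2 = G m v v := Real.sq_sqrt hvv.le
    have hu : G m (r⁻¹ • v) (r⁻¹ • v) = 1 := by
      rw [map_smul, map_smul, ContinuousLinearMap.smul_apply, smul_eq_mul, smul_eq_mul, ← hr2]
      field_simp
    have hrv : r • (r⁻¹ • v) = v := by
      rw [smul_smul, mul_inv_cancel₀ hr0.ne', one_smul]
    have key : ∀ w, Real.sin r ^ 2 * G m w w ≤
        r ^ 2 * G (ex (m, v)) (dE ex m v w) (dE ex m v w) := by
      intro w
      have h1 := (hL G ex hG hS hE m hm (r⁻¹ • v) w hu r hr0 hv).2
      have hJ : Jf ex m (r⁻¹ • v) w r = r • dE ex m v w := by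
        unfold Jf
        rw [hrv]
        unfold dE
        rw [map_smul]
      rw [hJ, hrv, map_smul, map_smul, ContinuousLinearMap.smul_apply, smul_eq_mul,
        smul_eq_mul] at h1
      calc Real.sin r ^ 2 * G m w w = G m w w * Real.sin r ^ 2 := mul_comm _ _
        _ ≤ _ := h1
        _ = _ := by ring
    refine ⟨key, ?_⟩
    have hsin : 0 < Real.sin r := Real.sin_pos_of_pos_of_lt_pi hr0 hv
    have hinj : Function.Injective (fderiv ℝ (fun u : E5 => ex (m, u)) v) := by
      rw [injective_iff_map_eq_zero]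
      intro w hw
      by_contra hne
      have h1 := key w
      have h2 : dE ex m v w = 0 := hw
      rw [h2, map_zero, mul_zero] at h1
      have h3 : 0 < Real.sin r ^ 2 * G m w w := mul_pos (pow_pos hsin 2) (hpos w hne)
      linarith
    refine ⟨hinj, ?_⟩
    have h2 := (LinearMap.injective_iff_surjective
      (f := (fderiv ℝ (fun u : E5 => ex (m, u)) v : E5 →ₗ[ℝ] E5))).1 hinj
    exact h2

end Pool.Agent.ZRT.H47

end

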